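import Pool.Agent.L5helper66.TD.FamC
import Pool.Agent.L5helper3.NFExists

/-!
# NG3 (by helper57): the tetrahedron with the edges 19, 18, 15, 13, 10, 9 has Dehn invariant zero
-/

set_option autoImplicit false

open scoped TensorProduct RealInnerProductSpace

namespace Pool.Agent.L5helper57.NG

open Pool.Agent.L5helper66.TD
open Pool.Agent.L5helper5.NF (cm_pos)
open Pool.Agent.L5helper97.NF (term_dist)

lemma mulr {θ x y θ' x' y' r : ℝ} (hr : r * r = 55) (h : Dir θ x (y * r))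
    (h' : Dir θ' x' (y' * r)) (c X Y : ℝ) (hc : c ≠ 0) (hX : c * X = x * x' - 55 * (y * y'))
    (hY : c * Y = x * y' + y * x') : Dir (θ + θ') X (Y * r) := by
  refine (h.mul h').scale hc ?_ ?_
  · rw [hX, ← hr]
    ring
  · rw [← mul_assoc, hY]
    ring

lemma negr {θ x y r : ℝ} (h : Dir θ x (y * r)) : Dir (-θ) x ((-y) * r) := by
  have := h.neg
  rwa [← neg_mul] at this

lemma tmul_comb (x : ℝ) (n m : ℤ) (A P Q : Ang) (h : A = n • P + m • Q) :
    x ⊗ₜ[ℤ] A = ((n : ℝ) * x) ⊗ₜ[ℤ] P + ((m : ℝ) * x) ⊗ₜ[ℤ] Q := by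
  rw [h, TensorProduct.tmul_add, tmul_zs, tmul_zs]

/-- NG3 -/
theorem S_dehn (T : Fin 4 → E3) (h : HasEdges T 19 18 15 13 10 9) : dehn T = 0 := by
  obtain ⟨h01, h02, h03, h12, h13, h23⟩ := h
  have hcm : (0 : ℝ) < cm 19 18 15 13 10 9 := by
    unfold cm
    norm_num
  have hab : ∀ x y : ℝ, x = y → 0 < y → x = |y| := fun x y e hy => by rw [e, abs_of_pos hy]
  have g01 := hab _ _ h01 (by norm_num)
  have g02 := hab _ _ h02 (by norm_num)
  have g03 := hab _ _ h03 (by norm_num)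
  have g12 := hab _ _ h12 (by norm_num)
  have g13 := hab _ _ h13 (by norm_num)
  have g23 := hab _ _ h23 (by norm_num)
  obtain ⟨A, tA, dA⟩ := term_dist (T 0) (T 1) (T 2) (T 3) _ _ _ _ _ _ g01 g02 g03 g12 g13 g23 hcm
  obtain ⟨B, tB, dB⟩ := term_dist (T 0) (T 2) (T 1) (T 3) _ _ _ _ _ _ g02 g01 g03
    ((dist_comm _ _).trans g12) g23 g13 (by rw [cm_p1]; exact hcm)
  obtain ⟨C, tC, dC⟩ := term_dist (T 0) (T 3) (T 1) (T 2) _ _ _ _ _ _ g03 g01 g02
    ((dist_comm _ _).trans g13) ((dist_comm _ _).trans g23) g12 (by rw [cm_p2]; exact hcm)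
  obtain ⟨D, tD, dD⟩ := term_dist (T 1) (T 2) (T 0) (T 3) _ _ _ _ _ _ g12
    ((dist_comm _ _).trans g01) g13 ((dist_comm _ _).trans g02) g23 g03
    (by rw [cm_p3]; exact hcm)
  obtain ⟨E, tE, dE⟩ := term_dist (T 1) (T 3) (T 0) (T 2) _ _ _ _ _ _ g13
    ((dist_comm _ _).trans g01) g12 ((dist_comm _ _).trans g03) ((dist_comm _ _).trans g23) g02
    (by rw [cm_p4]; exact hcm)
  obtain ⟨F, tF, dF⟩ := term_dist (T 2) (T 3) (T 0) (T 1) _ _ _ _ _ _ g23
    ((dist_comm _ _).trans g02) ((dist_comm _ _).trans g12) ((dist_comm _ _).trans g03)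
    ((dist_comm _ _).trans g13) g01 (by rw [cm_p5]; exact hcm)
  rw [cm_p1] at dB
  rw [cm_p2] at dC
  rw [cm_p3] at dD
  rw [cm_p4] at dE
  rw [cm_p5] at dF
  obtain ⟨r, hr0, hr⟩ : ∃ r : ℝ, 0 < r ∧ r * r = 55 :=
    ⟨√55, Real.sqrt_pos.2 (by norm_num), Real.mul_self_sqrt (by norm_num)⟩
  have hs : √(2 * cm 19 18 15 13 10 9) = 720 * r := by
    have : (2 * cm 19 18 15 13 10 9 : ℝ) = (720 * r) ^ 2 := by
      have : (720 * r) ^ 2 = 720 ^ 2 * (r * r) := by ring
      rw [this, hr]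
      unfold cm
      norm_num
    rw [this, Real.sqrt_sq (by positivity)]
  rw [hs] at dA dB dC dD dE dF
  have zA : Dir A 121 (19 * r) := dA.scale (c := 720) (by norm_num) (by norm_num) (by ring)
  have zB : Dir B 17 (3 * r) := dB.scale (c := 4320) (by norm_num) (by norm_num) (by ring)
  have zC : Dir C 11 (25 * r) := dC.scale (c := 432) (by norm_num) (by norm_num) (by ring)
  have zD : Dir D 57 (13 * r) := dD.scale (c := 720) (by norm_num) (by norm_num) (by ring)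
  have zE : Dir E (-11) (25 * r) := dE.scale (c := 288) (by norm_num) (by norm_num) (by ring)
  have zF : Dir F (-13) (15 * r) := dF.scale (c := 432) (by norm_num) (by norm_num) (by ring)
  have zB2 := mulr hr zB zB 2 (-103) 51 (by norm_num) (by norm_num) (by norm_num)
  have zB4 := mulr hr zB2 zB2 2 (-66223) (-5253) (by norm_num) (by norm_num) (by norm_num)
  have zB5 := mulr hr zB4 zB 2 (-129523) (-143985) (by norm_num) (by norm_num) (by norm_num)
  have zC2 := mulr hr zC zC 22 (-1557) 25 (by norm_num) (by norm_num) (by norm_num)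
  have zC3 := mulr hr zC2 zC 2 (-25751) (-19325) (by norm_num) (by norm_num) (by norm_num)
  have zC4 := mulr hr zC2 zC2 2 1194937 (-38925) (by norm_num) (by norm_num) (by norm_num)
  have w1 := mulr hr zA zB4 98 (-25751) (-19325) (by norm_num) (by norm_num) (by norm_num)
  have w1' := mulr hr w1 (negr zC3) 21203173376 1 0 (by norm_num) (by norm_num) (by norm_num)
  have w2 := mulr hr zD (negr zB) 2 1557 25 (by norm_num) (by norm_num) (by norm_num)
  have w2' := mulr hr w2 zC2 2458624 (-1) 0 (by norm_num) (by norm_num) (by norm_num)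
  have w3 := mulr hr zE zC 34496 (-1) 0 (by norm_num) (by norm_num) (by norm_num)
  have w4 := mulr hr zF (negr zB5) 98 (-1194937) (-38925) (by norm_num) (by norm_num)
    (by norm_num)
  have w4' := mulr hr w4 zC4 1511207993344 (-1) 0 (by norm_num) (by norm_num) (by norm_num)
  have e1 := w1'.ang_eq_zero' (by ring)
  have e2 := w2'.ang_eq_zero' (by ring)
  have e3 := w3.ang_eq_zero' (by ring)
  have e4 := w4'.ang_eq_zero' (by ring)
  simp only [ang_add, ang_neg] at e1 e2 e3 e4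
  have f1 : ang A = (-4 : ℤ) • ang B + (3 : ℤ) • ang C := by
    have : ang A = ang A - 0 := by rw [sub_zero]
    rw [this, ← e1]
    abel
  have f2 : ang D = (1 : ℤ) • ang B + (-2 : ℤ) • ang C := by
    have : ang D = ang D - 0 := by rw [sub_zero]
    rw [this, ← e2]
    abel
  have f3 : ang E = (0 : ℤ) • ang B + (-1 : ℤ) • ang C := by
    rw [zero_smul, zero_add, neg_smul, one_smul]
    exact eq_neg_of_add_eq_zero_left e3
  have f4 : ang F = (5 : ℤ) • ang B + (-4 : ℤ) • ang C := by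
    have : ang F = ang F - 0 := by rw [sub_zero]
    rw [this, ← e4]
    abel
  unfold dehn
  rw [tA, tB, tC, tD, tE, tF, tmul_comb _ _ _ _ _ _ f1, tmul_comb _ _ _ _ _ _ f2,
    tmul_comb _ _ _ _ _ _ f3, tmul_comb _ _ _ _ _ _ f4]
  have g : ∀ (x1 x2 x3 x4 x5 : ℝ) (P : Ang), x1 + x2 + x3 + x4 + x5 = 0 →
      x1 ⊗ₜ[ℤ] P + x2 ⊗ₜ[ℤ] P + x3 ⊗ₜ[ℤ] P + x4 ⊗ₜ[ℤ] P + x5 ⊗ₜ[ℤ] P = 0 := by
    intro x1 x2 x3 x4 x5 P h
    rw [← TensorProduct.add_tmul, ← TensorProduct.add_tmul, ← TensorProduct.add_tmul,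
      ← TensorProduct.add_tmul, h, TensorProduct.zero_tmul]
  have k1 := g (((-4 : ℤ) : ℝ) * 19) 18 (((1 : ℤ) : ℝ) * 13) (((0 : ℤ) : ℝ) * 10)
    (((5 : ℤ) : ℝ) * 9) (ang B) (by norm_num)
  have k2 := g (((3 : ℤ) : ℝ) * 19) 15 (((-2 : ℤ) : ℝ) * 13) (((-1 : ℤ) : ℝ) * 10)
    (((-4 : ℤ) : ℝ) * 9) (ang C) (by norm_num)
  have k3 := congrArg₂ (· + ·) k1 k2
  simp only [add_zero] at k3
  rw [← k3]
  abel

theorem S_exists : ∃ T : Fin 4 → E3, AffineIndependent ℝ T ∧ HasEdges T 19 18 15 13 10 9 := by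
  refine Pool.Agent.L5helper3.NF.exists_tetra 19 18 15 13 10 9 (by norm_num) (by norm_num)
    (by norm_num) (by norm_num) (by norm_num) (by norm_num) (by norm_num) ?_
  unfold cm
  norm_num

end Pool.Agent.L5helper57.NG
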