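import Pool.Agent.L5helper69.SV.Defs3

/-!
# NOETH (by helper57): Hilbert's basis theorem for the ring generated by `n` and `z ^ n`
-/

set_option autoImplicit false

namespace Pool.Agent.L5helper57.SV

open Pool.Agent.L5helper69.SV3 Polynomial

theorem rng_fg (P : ℂ[X]) : (Rng P).FG := by
  refine Subalgebra.fg_def.2 ⟨_, (Set.finite_singleton _).union ?_, rfl⟩
  have h : {a : ℕ → ℂ | ∃ z ∈ P.roots, a = fun n => z ^ n} =
      (fun z : ℂ => fun n : ℕ => z ^ n) '' {z : ℂ | z ∈ P.roots} := by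
    ext a
    constructor
    · rintro ⟨z, hz, rfl⟩
      exact ⟨z, hz, rfl⟩
    · rintro ⟨z, hz, rfl⟩
      exact ⟨z, hz, rfl⟩
  rw [h]
  refine Set.Finite.image _ ?_
  have h2 : {z : ℂ | z ∈ P.roots} = (P.roots.toFinset : Set ℂ) := by
    ext z
    simp
  rw [h2]
  exact Finset.finite_toSet _

theorem noeth : St_Noeth := by
  intro P S hS hmono
  have : Algebra.FiniteType ℂ (Rng P) := (Subalgebra.fg_iff_finiteType _).1 (rng_fg P)
  have hN : IsNoetherianRing (Rng P) := Algebra.FiniteType.isNoetherianRing ℂ (Rng P)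
  let I : ℕ →o Ideal (Rng P) :=
    ⟨fun m => Ideal.span {r : Rng P | (r : ℕ → ℂ) ∈ S m},
      fun m n h => Ideal.span_mono (fun r hr => hmono m n h hr)⟩
  obtain ⟨d, hd⟩ := monotone_stabilizes_iff_noetherian.2 hN I
  refine ⟨d, fun n hn m a ha => ?_⟩
  let ev : Rng P →+* ℂ := (Pi.evalRingHom (fun _ : ℕ => ℂ) n).comp (Rng P).val.toRingHom
  have hev : ∀ r : Rng P, ev r = (r : ℕ → ℂ) n := fun r => rfl
  have h1 : I d ≤ RingHom.ker ev := by
    refine Ideal.span_le.2 ?_
    intro r hr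
    exact hn _ hr
  have h2 : (⟨a, hS m a ha⟩ : Rng P) ∈ I (max d m) :=
    Ideal.subset_span (hmono m _ (le_max_right _ _) ha)
  rw [← hd _ (le_max_left _ _)] at h2
  exact h1 h2

end Pool.Agent.L5helper57.SV
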